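import Pool.Agent.H63.JAB.Near

/-!
# The jets at the sample and the coefficients of the own path, few bits

`jr_of_oj`: the coefficients of the own path are few bits if the jets at the sample are.
`oj_of_jr`: the jets at the sample are few bits if the coefficients of the own path are.
-/

set_option autoImplicit false

namespace Pool.PN18

open Finset Real MvPolynomial
open Pool.Agent.H49.Ent Pool.Agent.H32.Dense Pool.STK Pool.KA Pool.KSAT Pool.K2S Pool.PB Pool.GEN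
open Pool.S6C Pool.RCD Pool.LA91 Pool.OWN68 Pool.AJW
open Pool.GRD (LbP)
open Pool.ALT (Fml DpI)

/-- A quantity near a function of the condition, with the constant. -/
theorem CH_phi {Ω Γ : Type} [Fintype Ω] {q : Ω → ℝ} (hq : IsLaw q) (f : Ω → ℝ) (G : Ω → Γ)
    (Φ : Γ → ℝ) {C : ℝ} (h : ∀ ω, |f ω - Φ (G ω)| ≤ C) :
    CH q (fun ω => ⌊f ω⌋) G ≤ Real.log (2 * ((⌈2 * C⌉₊ + 1 : ℕ) : ℝ) + 1) := by
  refine Pool.LPK12.CH_near hq f G fun ω ω' _ _ e => ?_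
  have h1 := h ω
  have h2 := h ω'
  rw [← e] at h2
  rw [abs_le] at h1 h2 ⊢
  constructor <;> linarith [h1.1, h1.2, h2.1, h2.2]

/-- **TASK A3.** The coefficients of order at least `i₀` are few bits if the jets are. -/
theorem jr_of_oj (K : ℕ) {m : ℕ} {S : PCl m} {C₀ : ℝ} (htm : TmC S C₀) {κ₁ : Fin m}
    {w a p : ℝ} (hw0 : 0 ≤ w) (hwa : w ≤ a) (ha : a ≤ 1) {X : ℕ → ℝ} {i₀ : ℕ}
    (hX : ∀ j l, i₀ ≤ j → j ≤ l → X j ≤ X l)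
    {U₀ : Type} {Qu : Qt m U₀} {α γ : ∀ J : ℕ, Fam m J → Type}
    {f : ∀ (J : ℕ) (F : Fam m J), F.Ω → α J F} {y : ∀ (J : ℕ) (F : Fam m J), F.Ω → γ J F}
    (hy : ∀ (J : ℕ) (F : Fam m J), ∃ φ : γ J F → ℕ, ∀ ω, F.T ω = φ (y J F ω))
    {e η δ : ℝ} (hη : 0 ≤ η) (hδ : 0 < δ) {Ψ : Fm2 m}
    (hdeg : ∀ (J : ℕ) (F : Fam m J) (A : F.Ω → Prop) (V C : Type) (z : PtT F → V)
      (z' : LnT F → V) (G₁ G₂ : V → MvPolynomial (Option (Fin m)) ℝ) (c : LnT F → C),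
      Ψ J F A V C z z' G₁ G₂ c → ∀ v, (G₁ v).totalDegree ≤ K + 1)
    (hF : ∀ l, i₀ ≤ l → l ≤ K + 2 → Fw2 S f a y Qu Ψ (τ := fun _ _ _ _ => ℤ)
      (fun J F _ _ z' G₁ _ _ ω => ⌊(2 : ℝ) ^ ((p + X l - l * w) * J) * ojet F κ₁ l
        (G₁ (z' (slam F ⌊w * J⌋₊ ω))) ω⌋) e η) :
    Fw2 S f a y Qu Ψ (τ := fun _ _ _ _ => Fin (K + 3) → ℤ)
      (fun J F _ _ z' G₁ _ _ ω => fun l => if i₀ ≤ (l : ℕ) then
        ⌊jr F ⌊w * J⌋₊ (2 ^ ((p + X l) * J)) κ₁ z' G₁ l (vg w J F ω)⌋ else 0) e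
      ((K + 3) * η + δ) := by
  obtain ⟨C, hC0, hC⟩ := jr_near K
  obtain ⟨L, hL⟩ : ∃ L : ℝ, L = Real.log (2 * ((⌈2 * C⌉₊ + 1 : ℕ) : ℝ) + 1) := ⟨_, rfl⟩
  have hL0 : 0 ≤ L := by
    rw [hL]
    refine Real.log_nonneg ?_
    have : (0 : ℝ) ≤ ((⌈2 * C⌉₊ + 1 : ℕ) : ℝ) := Nat.cast_nonneg _
    linarith
  obtain ⟨J₀, hJ₀⟩ := exists_nat_ge ((K + 3) * L / δ)
  intro K₀
  have hall : Bas S (fun J F A => ∀ i : Fin (K + 3), i₀ ≤ (i : ℕ) →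
    ∀ (V C : Type) (z : PtT F → V) (z' : LnT F → V)
    (G₁ G₂ : V → MvPolynomial (Option (Fin m)) ℝ) (c : LnT F → C), Ψ J F A V C z z' G₁ G₂ c →
    ∀ u₀ : F.Ω → U₀, Qu.P K₀ e J F A u₀ →
    ∃ (V₁ : Type) (z₁ : F.Ω → V₁), Cl2 (f J F) (vg a J F) A z₁ ∧
      CH (Pool.Agent.H49.Ent.cond F.p A True)
        (fun ω => ⌊(2 : ℝ) ^ ((p + X i - (i : ℕ) * w) * J) * ojet F κ₁ i
          (G₁ (z' (slam F ⌊w * J⌋₊ ω))) ω⌋)
        (fun ω => (u₀ ω, (z₁ ω, y J F ω))) ≤ η * J) := by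
    refine Bas.fin' fun i => ?_
    by_cases hi : i₀ ≤ (i : ℕ)
    · exact Bas.mono 0 (hF i hi (by omega) K₀) fun _ _ _ _ h1 _ => h1
    · exact ⟨1, one_pos, 0, fun J _ F A _ h => absurd h hi⟩
  refine Bas.mono J₀ (hall.and (Pool.GRW.tmc_bas htm one_pos)) ?_
  rintro J hJ F A ⟨h1, hpe, -⟩ V C' z z' G₁ G₂ c hΨ u₀ hu₀
  have hq := isLaw_cond F.isLaw hpe
  have h0 := hq.nonneg
  have hJ0 : (0 : ℝ) ≤ J := Nat.cast_nonneg J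
  have hJr : (J₀ : ℝ) ≤ J := by exact_mod_cast hJ
  have hLJ : (K + 3) * L ≤ δ * J := by
    have := hJ₀.trans hJr
    rw [div_le_iff₀ hδ] at this
    linarith
  obtain ⟨φT, hφT⟩ := hy J F
  classical
  have hpick : ∀ i : Fin (K + 3), ∃ (V₁ : Type) (z₁ : F.Ω → V₁), Cl2 (f J F) (vg a J F) A z₁ ∧
      (i₀ ≤ (i : ℕ) → CH (Pool.Agent.H49.Ent.cond F.p A True)
        (fun ω => ⌊(2 : ℝ) ^ ((p + X i - (i : ℕ) * w) * J) * ojet F κ₁ i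
          (G₁ (z' (slam F ⌊w * J⌋₊ ω))) ω⌋)
        (fun ω => (u₀ ω, (z₁ ω, y J F ω))) ≤ η * J) := by
    intro i
    by_cases hi : i₀ ≤ (i : ℕ)
    · obtain ⟨V₁, z₁, hz₁, h2⟩ := h1 i hi V C' z z' G₁ G₂ c hΨ u₀ hu₀
      exact ⟨V₁, z₁, hz₁, fun _ => h2⟩
    · exact ⟨Unit, fun _ => (), ⟨⟨fun _ => (), fun _ _ => rfl⟩, fun _ => (), fun _ _ => rfl⟩,
        fun h => absurd h hi⟩
  choose V₁ z₁ hz₁ hCH using hpick
  refine ⟨∀ i, V₁ i, fun ω i => z₁ i ω, Cl2.pi hz₁, ?_⟩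
  obtain ⟨W, hW⟩ : ∃ W : F.Ω → U₀ × ((∀ i, V₁ i) × γ J F), W = fun ω =>
    (u₀ ω, ((fun i => z₁ i ω), y J F ω)) := ⟨_, rfl⟩
  obtain ⟨B, hB⟩ : ∃ B : F.Ω → Fin (K + 3) → ℤ, B = fun ω (l : Fin (K + 3)) => if i₀ ≤ (l : ℕ) then
    ⌊(2 : ℝ) ^ ((p + X l - l * w) * J) * ojet F κ₁ l (G₁ (z' (slam F ⌊w * J⌋₊ ω))) ω⌋ else 0 :=
    ⟨_, rfl⟩
  have hηJ : 0 ≤ η * J := mul_nonneg hη hJ0
  have s1 : CH (Pool.Agent.H49.Ent.cond F.p A True) B W ≤ (K + 3) * (η * J) := by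
    refine (CH_pis h0 B W).trans ?_
    have h3 : ∀ i ∈ (Finset.univ : Finset (Fin (K + 3))),
        CH (Pool.Agent.H49.Ent.cond F.p A True) (fun ω => B ω i) W ≤ η * J := by
      intro i _
      by_cases hi : i₀ ≤ (i : ℕ)
      · refine le_trans ?_ (hCH i hi)
        have e1 : (fun ω => B ω i) = fun ω => ⌊(2 : ℝ) ^ ((p + X i - (i : ℕ) * w) * J) *
            ojet F κ₁ i (G₁ (z' (slam F ⌊w * J⌋₊ ω))) ω⌋ := by
          funext ω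
          rw [hB]
          exact if_pos hi
        rw [e1]
        refine CH_mono_cond h0 ?_
        intro ω ω' _ _ h
        rw [hW] at h
        simp only [Prod.mk.injEq] at h ⊢
        exact ⟨h.1, congrFun h.2.1 i, h.2.2⟩
      · refine le_trans (le_of_eq (CH_eq_zero h0 ?_)) hηJ
        intro ω ω' _ _ _
        rw [hB]
        dsimp only
        rw [if_neg hi, if_neg hi]
    refine (Finset.sum_le_sum h3).trans (le_of_eq ?_)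
    rw [Finset.sum_const, Finset.card_univ, Fintype.card_fin, nsmul_eq_mul]
    push_cast
    ring
  obtain ⟨R, hR⟩ : ∃ R : F.Ω → Fin (K + 3) → ℤ, R = fun ω (l : Fin (K + 3)) => if i₀ ≤ (l : ℕ) then
    ⌊jr F ⌊w * J⌋₊ (2 ^ ((p + X l) * J)) κ₁ z' G₁ l (slam F ⌊w * J⌋₊ ω)⌋ else 0 := ⟨_, rfl⟩
  have s2 : CH (Pool.Agent.H49.Ent.cond F.p A True) R (fun ω => (B ω, W ω)) ≤ (K + 3) * L := by
    refine (CH_pis h0 R _).trans ?_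
    have h3 : ∀ i ∈ (Finset.univ : Finset (Fin (K + 3))),
        CH (Pool.Agent.H49.Ent.cond F.p A True) (fun ω => R ω i) (fun ω => (B ω, W ω)) ≤ L := by
      intro i _
      by_cases hi : i₀ ≤ (i : ℕ)
      · obtain ⟨Φ, hΦ⟩ := hC F (κ := κ₁) z' G₁ (hdeg J F A V C' z z' G₁ G₂ c hΨ) (w := w) (p := p)
          hw0 (hwa.trans ha) (X := X) hi (by omega) (fun l hl => hX i l hi hl)
        have e1 : (fun ω => R ω i) = fun ω => ⌊jr F ⌊w * J⌋₊ (2 ^ ((p + X i) * J)) κ₁ z' G₁ i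
            (slam F ⌊w * J⌋₊ ω)⌋ := by
          funext ω
          rw [hR]
          exact if_pos hi
        rw [e1, hL]
        refine CH_phi hq _ _ (fun g => Φ g.1 (φT g.2.2.2)) (fun ω => ?_)
        rw [hB, hW]
        dsimp only
        rw [← hφT ω]
        exact hΦ ω
      · refine le_trans (le_of_eq (CH_eq_zero h0 ?_)) hL0
        intro ω ω' _ _ _
        rw [hR]
        dsimp only
        rw [if_neg hi, if_neg hi]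
    refine (Finset.sum_le_sum h3).trans (le_of_eq ?_)
    rw [Finset.sum_const, Finset.card_univ, Fintype.card_fin, nsmul_eq_mul]
    push_cast
    ring
  have s3 := CH_le_add h0 R B W
  have e2 : (fun ω => (fun l : Fin (K + 3) => if i₀ ≤ (l : ℕ) then
      ⌊jr F ⌊w * J⌋₊ (2 ^ ((p + X l) * J)) κ₁ z' G₁ l (vg w J F ω)⌋ else 0)) = R := by
    rw [hR]
    rfl
  have e3 : (fun ω => (u₀ ω, ((fun ω i => z₁ i ω) ω, y J F ω))) = W := by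
    rw [hW]
  show CH _ (fun ω => (fun l : Fin (K + 3) => if i₀ ≤ (l : ℕ) then
      ⌊jr F ⌊w * J⌋₊ (2 ^ ((p + X l) * J)) κ₁ z' G₁ l (vg w J F ω)⌋ else 0))
      (fun ω => (u₀ ω, ((fun ω i => z₁ i ω) ω, y J F ω))) ≤ _
  rw [e2, e3]
  have e4 : ((K + 3) * η + δ) * (J : ℝ) = (K + 3) * (η * J) + δ * J := by ring
  rw [e4]
  linarith

/-- **TASK A.** The jets of the second label at the sample from the coefficients of its own path. -/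
theorem oj_of_jr (K : ℕ) {m : ℕ} {S : PCl m} {C₀ : ℝ} (htm : TmC S C₀) {κ₁ κ₂ : Fin m}
    {w a p₁ p₂ x₁ x₂ : ℝ} (hw0 : 0 ≤ w) (hwa : w ≤ a) (ha : a ≤ 1)
    {U₀ : Type} {Qu : Qt m U₀} {α γ : ∀ J : ℕ, Fam m J → Type}
    {f : ∀ (J : ℕ) (F : Fam m J), F.Ω → α J F} {y : ∀ (J : ℕ) (F : Fam m J), F.Ω → γ J F}
    (hy : ∀ (J : ℕ) (F : Fam m J), ∃ φ : γ J F → ℕ, ∀ ω, F.T ω = φ (y J F ω))
    {e η δ : ℝ} (hδ : 0 < δ) {Ψ : Fm2 m}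
    (hdeg : ∀ (J : ℕ) (F : Fam m J) (A : F.Ω → Prop) (V C : Type) (z : PtT F → V)
      (z' : LnT F → V) (G₁ G₂ : V → MvPolynomial (Option (Fin m)) ℝ) (c : LnT F → C),
      Ψ J F A V C z z' G₁ G₂ c → ∀ v, (G₂ v).totalDegree ≤ K + 1)
    (hF : Fw2 S f a y Qu Ψ (τ := fun _ F V C => (V × (F.ζ × ℕ)) × (C ×
        ((Fin (K + 3) → ℤ) × (Fin (K + 3) → ℤ))))
      (fun J F _ _ z' G₁ G₂ c ω => ((z' (vg w J F ω), (vg w J F ω).2), (c (vg w J F ω),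
        (fun j : Fin (K + 3) => ⌊jr F ⌊w * J⌋₊ (2 ^ ((p₁ + x₁) * J)) κ₁ z' G₁ j
            (vg w J F ω)⌋,
          fun j : Fin (K + 3) => ⌊jr F ⌊w * J⌋₊ (2 ^ ((p₂ + x₂) * J)) κ₂ z' G₂ j
            (vg w J F ω)⌋)))) e η) {j : ℕ} (hj : j ≤ K + 2) :
    Fw2 S f a y Qu Ψ (τ := fun _ _ _ _ => ℤ)
      (fun J F _ _ z' _ G₂ _ ω => ⌊(2 : ℝ) ^ ((p₂ + x₂ - j * w) * J) * ojet F κ₂ j
        (G₂ (z' (slam F ⌊w * J⌋₊ ω))) ω⌋) e (η + δ) := by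
  obtain ⟨C, hC0, hC⟩ := oj_near K
  obtain ⟨L, hL⟩ : ∃ L : ℝ, L = Real.log (2 * ((⌈2 * C⌉₊ + 1 : ℕ) : ℝ) + 1) := ⟨_, rfl⟩
  obtain ⟨J₀, hJ₀⟩ := exists_nat_ge (L / δ)
  intro K₀
  refine Bas.mono J₀ ((hF K₀).and (Pool.GRW.tmc_bas htm one_pos)) ?_
  rintro J hJ F A ⟨h1, hpe, -⟩ V C' z z' G₁ G₂ c hΨ u₀ hu₀
  have hq := isLaw_cond F.isLaw hpe
  have h0 := hq.nonneg
  have hJ0 : (0 : ℝ) ≤ J := Nat.cast_nonneg J
  have hJr : (J₀ : ℝ) ≤ J := by exact_mod_cast hJ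
  have hLJ : L ≤ δ * J := by
    have := hJ₀.trans hJr
    rw [div_le_iff₀ hδ] at this
    linarith
  obtain ⟨φT, hφT⟩ := hy J F
  obtain ⟨V₁, z₁, hz₁, h2⟩ := h1 V C' z z' G₁ G₂ c hΨ u₀ hu₀
  refine ⟨V₁, z₁, hz₁, ?_⟩
  obtain ⟨B, hB⟩ : ∃ B : F.Ω → (V × (F.ζ × ℕ)) × (C' × ((Fin (K + 3) → ℤ) × (Fin (K + 3) → ℤ))),
    B = fun ω => ((z' (vg w J F ω), (vg w J F ω).2), (c (vg w J F ω),
        (fun j : Fin (K + 3) => ⌊jr F ⌊w * J⌋₊ (2 ^ ((p₁ + x₁) * J)) κ₁ z' G₁ j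
            (vg w J F ω)⌋,
          fun j : Fin (K + 3) => ⌊jr F ⌊w * J⌋₊ (2 ^ ((p₂ + x₂) * J)) κ₂ z' G₂ j
            (vg w J F ω)⌋))) := ⟨_, rfl⟩
  have h2' : CH (Pool.Agent.H49.Ent.cond F.p A True) B
      (fun ω => (u₀ ω, (z₁ ω, y J F ω))) ≤ η * J := by
    rw [hB]
    exact h2
  have s3 := CH_le_add h0 (fun ω => ⌊(2 : ℝ) ^ ((p₂ + x₂ - j * w) * J) * ojet F κ₂ j
        (G₂ (z' (slam F ⌊w * J⌋₊ ω))) ω⌋) B (fun ω => (u₀ ω, (z₁ ω, y J F ω)))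
  obtain ⟨Φ, hΦ⟩ := hC F (κ := κ₂) z' G₂ (hdeg J F A V C' z z' G₁ G₂ c hΨ) (w := w) (p := p₂)
    hw0 (hwa.trans ha) (X := fun _ => x₂) (Nat.zero_le j) hj (fun _ _ => le_rfl)
  have s4 : CH (Pool.Agent.H49.Ent.cond F.p A True)
      (fun ω => ⌊(2 : ℝ) ^ ((p₂ + x₂ - j * w) * J) * ojet F κ₂ j
        (G₂ (z' (slam F ⌊w * J⌋₊ ω))) ω⌋) (fun ω => (B ω, (u₀ ω, (z₁ ω, y J F ω)))) ≤ L := by
    rw [hL]
    refine CH_phi hq _ _ (fun g => Φ g.1.2.2.2 (φT g.2.2.2)) (fun ω => ?_)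
    rw [hB]
    dsimp only
    rw [← hφT ω]
    exact hΦ ω
  have e4 : (η + δ) * (J : ℝ) = η * J + δ * J := by ring
  rw [e4]
  linarith

end Pool.PN18
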