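import Mathlib

/-!
# The numbers of the stages
-/

set_option autoImplicit false

namespace Pool.PN18

/-- A positive lower bound of finitely many positive numbers. -/
theorem pos_lb {ι : Type} (s : Finset ι) (f : ι → ℝ) (h : ∀ i ∈ s, 0 < f i) :
    ∃ γ : ℝ, 0 < γ ∧ ∀ i ∈ s, γ ≤ f i := by
  classical
  induction s using Finset.induction_on with
  | empty => exact ⟨1, one_pos, fun i hi => absurd hi (Finset.notMem_empty i)⟩
  | insert a s _ ih =>
    obtain ⟨γ, h1, h2⟩ := ih fun i hi => h i (Finset.mem_insert_of_mem hi)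
    refine ⟨min γ (f a), lt_min h1 (h a (Finset.mem_insert_self a s)), fun i hi => ?_⟩
    rcases Finset.mem_insert.1 hi with h3 | h3
    · rw [h3]
      exact min_le_right _ _
    · exact (min_le_left _ _).trans (h2 i h3)

/-- A small step which avoids the resonances. -/
theorem eta_ex {a b : ℝ} (ha : 0 < a) (hb : 0 < b) : ∃ η : ℝ, 0 < η ∧ η < 1 / 4 ∧
    ∀ k i : ℕ, 1 ≤ k → a - k * η ≠ i ∧ (a - k * η) * (b / a) ≠ i := by
  have hc : (Set.range (fun x : ℕ × ℕ => (a - (x.2 : ℝ)) / x.1) ∪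
      Set.range (fun x : ℕ × ℕ => (a - (x.2 : ℝ) * (a / b)) / x.1)).Countable :=
    (Set.countable_range _).union (Set.countable_range _)
  obtain ⟨η, h1, h2⟩ : ∃ η ∈ Set.Ioo (0 : ℝ) (1 / 4),
      η ∉ (Set.range (fun x : ℕ × ℕ => (a - (x.2 : ℝ)) / x.1) ∪
      Set.range (fun x : ℕ × ℕ => (a - (x.2 : ℝ) * (a / b)) / x.1)) := by
    by_contra hcon
    push Not at hcon
    exact Cardinal.Real.Ioo_countable_iff.not.2 (by norm_num) (hc.mono hcon)
  refine ⟨η, h1.1, h1.2, fun k i hk => ⟨fun h => h2 (Or.inl ⟨(k, i), ?_⟩),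
    fun h => h2 (Or.inr ⟨(k, i), ?_⟩)⟩⟩
  · have hk0 : (0 : ℝ) < k := by exact_mod_cast hk
    show (a - (i : ℝ)) / k = η
    rw [div_eq_iff hk0.ne']
    linarith
  · have hk0 : (0 : ℝ) < k := by exact_mod_cast hk
    show (a - (i : ℝ) * (a / b)) / k = η
    rw [div_eq_iff hk0.ne', ← h]
    field_simp
    ring

/-- **TASK D.** The numbers of the stages. -/
theorem thr_ex {a b : ℝ} (ha : 1 < a) (hb : 0 < b) (hab : b < a) (K : ℕ) :
    ∃ (M : ℕ) (x τ : ℕ → ℝ), x 0 = a ∧ (∀ k < M, x (k + 1) < x k) ∧ (∀ k < M, τ (k + 1) ≤ τ k) ∧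
      (∀ k ≤ M, 0 < x k ∧ 1 ≤ τ k ∧ 1 ≤ b / a * (τ k * x k)) ∧
      (∀ k < M, ∀ i i' : ℕ, x (k + 1) < i → (i : ℝ) ≤ x k → x (k + 1) < i' → (i' : ℝ) ≤ x k →
        i = i') ∧
      (∀ k < M, ∀ j j' : ℕ, x (k + 1) * (b / a) < j → (j : ℝ) ≤ x k * (b / a) →
        x (k + 1) * (b / a) < j' → (j' : ℝ) ≤ x k * (b / a) → j = j') ∧
      (∀ k < M, ∀ i : ℕ, i ≤ K + 2 → x k < i →
        (i - x (k + 1)) * τ (k + 1) + 2 ≤ (i - x k) * τ k) ∧
      (∀ k < M, ∀ j : ℕ, j ≤ K + 2 → x k * (b / a) < j →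
        (j - x (k + 1) * (b / a)) * τ (k + 1) + 2 ≤ (j - x k * (b / a)) * τ k) ∧
      (∀ k < M, ∀ i : ℕ, (i : ℝ) ≤ x (k + 1) → (i - x (k + 1)) * τ (k + 1) + 2 ≤ 0) ∧
      (∀ k < M, ∀ j : ℕ, (j : ℝ) ≤ x (k + 1) * (b / a) →
        (j - x (k + 1) * (b / a)) * τ (k + 1) + 2 ≤ 0) ∧
      a + 1 ≤ (1 - x M) * τ M := by
  have ha0 : 0 < a := by linarith
  have hba : 0 < b / a := div_pos hb ha0
  have hba1 : b / a < 1 := (div_lt_one ha0).2 hab
  obtain ⟨η, hη0, hη4, hη⟩ := eta_ex ha0 hb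
  obtain ⟨x, hx⟩ : ∃ x : ℕ → ℝ, x = fun k : ℕ => a - (k : ℝ) * η := ⟨_, rfl⟩
  have hxk : ∀ k, x k = a - k * η := fun k => by rw [hx]
  have hst : ∀ k, x (k + 1) = x k - η := fun k => by
    rw [hxk, hxk]
    push_cast
    ring
  -- the last stage
  have hex : ∃ k : ℕ, x k < 1 / 2 := by
    obtain ⟨k, hk⟩ := exists_nat_gt (a / η)
    refine ⟨k, ?_⟩
    rw [div_lt_iff₀ hη0] at hk
    rw [hxk]
    linarith
  classical
  obtain ⟨M, hM⟩ : ∃ M : ℕ, M = Nat.find hex := ⟨_, rfl⟩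
  have hM1 : x M < 1 / 2 := by
    rw [hM]
    exact Nat.find_spec hex
  have hM2 : ∀ k < M, 1 / 2 ≤ x k := fun k hk => by
    rw [hM] at hk
    exact not_lt.1 (Nat.find_min hex hk)
  have hM0 : 1 ≤ M := by
    rcases Nat.eq_zero_or_pos M with h | h
    · rw [h, hxk] at hM1
      push_cast at hM1
      linarith
    · exact h
  have hanti : ∀ k l : ℕ, k ≤ l → x l ≤ x k := fun k l h => by
    rw [hxk, hxk]
    have : (k : ℝ) ≤ l := by exact_mod_cast h
    nlinarith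
  have hxM : 1 / 4 < x M := by
    obtain ⟨k, rfl⟩ := Nat.exists_eq_add_of_le' hM0
    have h1 := hM2 k (by omega)
    rw [hst]
    linarith
  have hpos : ∀ k ≤ M, 1 / 4 < x k := fun k hk => hxM.trans_le (hanti k M hk)
  have hxa : ∀ k, x k ≤ a := fun k => by
    have := hanti 0 k (Nat.zero_le k)
    rw [hxk 0] at this
    push_cast at this
    linarith
  -- the gap
  obtain ⟨N, hN⟩ := exists_nat_gt (a + K + 2)
  obtain ⟨γ₁, hγ₁, g1⟩ := pos_lb (Finset.range (M + 1) ×ˢ Finset.range (N + 1))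
    (fun y => if x y.1 = (y.2 : ℝ) then 1 else |(y.2 : ℝ) - x y.1|) (fun y _ => by
      split_ifs with h
      · exact one_pos
      · exact abs_pos.2 (sub_ne_zero.2 (Ne.symm h)))
  obtain ⟨γ₂, hγ₂, g2⟩ := pos_lb (Finset.range (M + 1) ×ˢ Finset.range (N + 1))
    (fun y => if x y.1 * (b / a) = (y.2 : ℝ) then 1 else |(y.2 : ℝ) - x y.1 * (b / a)|)
    (fun y _ => by
      split_ifs with h
      · exact one_pos
      · exact abs_pos.2 (sub_ne_zero.2 (Ne.symm h)))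
  obtain ⟨γ, hγ⟩ : ∃ γ : ℝ, γ = min γ₁ γ₂ := ⟨_, rfl⟩
  have hγ0 : 0 < γ := by rw [hγ]; exact lt_min hγ₁ hγ₂
  have f1 : ∀ k ≤ M, ∀ i : ℕ, (i : ℝ) ≤ a + K + 2 → x k ≠ i → γ ≤ |(i : ℝ) - x k| := by
    intro k hk i hi hne
    have hiN : i ≤ N := by
      have : (i : ℝ) < N := by linarith
      exact_mod_cast this.le
    have := g1 (k, i) (Finset.mem_product.2 ⟨Finset.mem_range.2 (by omega),
      Finset.mem_range.2 (by omega)⟩)
    rw [if_neg hne] at this
    rw [hγ]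
    exact (min_le_left _ _).trans this
  have f2 : ∀ k ≤ M, ∀ i : ℕ, (i : ℝ) ≤ a + K + 2 → x k * (b / a) ≠ i →
      γ ≤ |(i : ℝ) - x k * (b / a)| := by
    intro k hk i hi hne
    have hiN : i ≤ N := by
      have : (i : ℝ) < N := by linarith
      exact_mod_cast this.le
    have := g2 (k, i) (Finset.mem_product.2 ⟨Finset.mem_range.2 (by omega),
      Finset.mem_range.2 (by omega)⟩)
    rw [if_neg hne] at this
    rw [hγ]
    exact (min_le_right _ _).trans this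
  -- the units
  have hK0 : (0 : ℝ) ≤ K := Nat.cast_nonneg K
  obtain ⟨B, hB⟩ : ∃ B : ℝ, B = (K + 4) / γ + 1 := ⟨_, rfl⟩
  have hB1 : 1 ≤ B := by
    rw [hB]
    have : 0 ≤ (K + 4) / γ := by positivity
    linarith
  have hBγ : (K : ℝ) + 4 ≤ γ * B := by
    rw [hB, mul_add, mul_div_cancel₀ _ hγ0.ne']
    linarith
  obtain ⟨T₀, hT₀⟩ : ∃ T₀ : ℝ, T₀ = 1 + 2 / γ + 4 * (a / b) + 2 * (a + 1) := ⟨_, rfl⟩
  have q1 : 0 ≤ 2 / γ := by positivity
  have q2 : 0 ≤ 4 * (a / b) := by positivity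
  have hT1 : 1 ≤ T₀ := by rw [hT₀]; linarith
  have hTγ : 2 ≤ γ * T₀ := by
    have h1 : γ * (2 / γ) = 2 := by field_simp
    have h2 : γ * (2 / γ) ≤ γ * T₀ := mul_le_mul_of_nonneg_left (by rw [hT₀]; linarith) hγ0.le
    linarith
  have hTb : 4 * (a / b) ≤ T₀ := by rw [hT₀]; linarith
  have hTa : 2 * (a + 1) ≤ T₀ := by rw [hT₀]; linarith
  obtain ⟨τ, hτ⟩ : ∃ τ : ℕ → ℝ, τ = fun k => B ^ (M - k) * T₀ := ⟨_, rfl⟩
  have hτk : ∀ k, τ k = B ^ (M - k) * T₀ := fun k => by rw [hτ]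
  have hτT : ∀ k, T₀ ≤ τ k := fun k => by
    rw [hτk]
    exact le_mul_of_one_le_left (by linarith) (one_le_pow₀ hB1)
  have hτs : ∀ k < M, τ k = B * τ (k + 1) := fun k hk => by
    rw [hτk, hτk, show M - k = M - (k + 1) + 1 by omega, pow_succ]
    ring
  have hup : ∀ k < M, ∀ y y' : ℝ, γ ≤ y → y' ≤ K + 2 → y' * τ (k + 1) + 2 ≤ y * τ k := by
    intro k hk y y' h1 h2
    have ht := hτT (k + 1)
    have h3 : y' * τ (k + 1) ≤ (K + 2) * τ (k + 1) := mul_le_mul_of_nonneg_right h2 (by linarith)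
    have h4 : ((K : ℝ) + 4) * τ (k + 1) ≤ y * τ k := by
      rw [hτs k hk, ← mul_assoc]
      refine mul_le_mul_of_nonneg_right ?_ (by linarith)
      exact hBγ.trans (mul_le_mul_of_nonneg_right h1 (by linarith))
    nlinarith
  have hdn : ∀ k, ∀ y : ℝ, y ≤ -γ → y * τ k + 2 ≤ 0 := by
    intro k y h1
    have ht := hτT k
    have h2 : y * τ k ≤ -γ * τ k := mul_le_mul_of_nonneg_right h1 (by linarith)
    have h3 : γ * T₀ ≤ γ * τ k := mul_le_mul_of_nonneg_left ht hγ0.le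
    linarith
  refine ⟨M, x, τ, ?_, ?_, ?_, ?_, ?_, ?_, ?_, ?_, ?_, ?_, ?_⟩
  · rw [hxk]
    push_cast
    ring
  · intro k _
    rw [hst]
    linarith
  · intro k hk
    rw [hτs k hk]
    exact le_mul_of_one_le_left (by linarith [hτT (k + 1)]) hB1
  · intro k hk
    have h1 := hpos k hk
    have h2 := hτT k
    refine ⟨by linarith, by linarith, ?_⟩
    have h3 : a / b ≤ τ k * x k := by
      have : 4 * (a / b) * (1 / 4) ≤ τ k * x k :=
        mul_le_mul (hTb.trans h2) h1.le (by norm_num) (by linarith)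
      linarith
    calc (1 : ℝ) = b / a * (a / b) := by field_simp
      _ ≤ b / a * (τ k * x k) := mul_le_mul_of_nonneg_left h3 hba.le
  · intro k _ i i' h1 h2 h3 h4
    rw [hst] at h1 h3
    have h5 : (i : ℝ) < i' + 1 := by linarith
    have h6 : (i' : ℝ) < i + 1 := by linarith
    have h7 : i < i' + 1 := by exact_mod_cast h5
    have h8 : i' < i + 1 := by exact_mod_cast h6
    omega
  · intro k _ j j' h1 h2 h3 h4
    rw [hst, sub_mul] at h1 h3
    have h0 : η * (b / a) < 1 := by nlinarith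
    have h5 : (j : ℝ) < j' + 1 := by linarith
    have h6 : (j' : ℝ) < j + 1 := by linarith
    have h7 : j < j' + 1 := by exact_mod_cast h5
    have h8 : j' < j + 1 := by exact_mod_cast h6
    omega
  · intro k hk i hi hxi
    have hi' : (i : ℝ) ≤ K + 2 := by exact_mod_cast hi
    have h1 := f1 k hk.le i (by linarith) hxi.ne
    rw [abs_of_pos (by linarith)] at h1
    exact hup k hk _ _ h1 (by linarith [hpos (k + 1) hk])
  · intro k hk i hi hxi
    have hi' : (i : ℝ) ≤ K + 2 := by exact_mod_cast hi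
    have h1 := f2 k hk.le i (by linarith) hxi.ne
    rw [abs_of_pos (by linarith)] at h1
    have h2 : 0 < x (k + 1) * (b / a) := mul_pos (by linarith [hpos (k + 1) hk]) hba
    exact hup k hk _ _ h1 (by linarith)
  · intro k hk i hi
    have hne : x (k + 1) ≠ i := by
      rw [hxk]
      exact (hη (k + 1) i (by omega)).1
    have h1 := f1 (k + 1) hk i (by linarith [hxa (k + 1)]) hne
    rw [abs_of_nonpos (by linarith)] at h1
    exact hdn _ _ (by linarith)
  · intro k hk j hj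
    have hne : x (k + 1) * (b / a) ≠ j := by
      rw [hxk]
      exact (hη (k + 1) j (by omega)).2
    have h3 : x (k + 1) * (b / a) ≤ a := by
      have := hpos (k + 1) hk
      nlinarith [hxa (k + 1)]
    have h1 := f2 (k + 1) hk j (by linarith) hne
    rw [abs_of_nonpos (by linarith)] at h1
    exact hdn _ _ (by linarith)
  · have h1 : τ M = T₀ := by
      rw [hτk, Nat.sub_self, pow_zero, one_mul]
    rw [h1]
    nlinarith

end Pool.PN18
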