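import Pool.Agent.H18.PN.Stg0

/-!
# The jets at the sample and the coefficients of the own path

`oj_near`: the jets at the sample, up to a constant, from the coefficients of the own path and the
time; `jr_near`: the coefficients of the own path, up to a constant, from the jets at the sample and
the time.
-/

set_option autoImplicit false

namespace Pool.PN18

open Finset Real MvPolynomial
open Pool.Agent.H49.Ent Pool.Agent.H32.Dense Pool.STK Pool.KA Pool.KSAT Pool.K2S Pool.PB Pool.GEN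
open Pool.S6C Pool.RCD Pool.LA91 Pool.OWN68 Pool.AJW
open Pool.GRD (LbP)
open Pool.ALT (Fml DpI)

/-- A derivative as a sum over the coefficients. -/
theorem der_sum {D : ℕ} {P : Polynomial ℝ} (hP : P.natDegree ≤ D) (j : ℕ) (u : ℝ) :
    (Polynomial.derivative^[j] P).eval u =
      ∑ i ∈ range (D + 1), ((i + j).descFactorial j : ℝ) * P.coeff (i + j) * u ^ i := by
  have h1 : (Polynomial.derivative^[j] P).natDegree < D + 1 :=
    lt_of_le_of_lt ((Polynomial.natDegree_iterate_derivative P j).trans (by omega : _ ≤ D))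
      (Nat.lt_succ_self D)
  rw [Polynomial.eval_eq_sum_range' h1]
  refine Finset.sum_congr rfl fun i _ => ?_
  rw [Polynomial.coeff_iterate_derivative, nsmul_eq_mul]

/-- A coefficient as a sum over the derivatives at a point. -/
theorem coef_sum {D : ℕ} {P : Polynomial ℝ} (hP : P.natDegree ≤ D) (j : ℕ) (u : ℝ) :
    P.coeff j = ∑ i ∈ range (D + 1), ((i + j).descFactorial j : ℝ) *
      ((Polynomial.derivative^[i + j] P).eval u / ((i + j).factorial : ℝ)) * (-u) ^ i /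
        (j.factorial : ℝ) := by
  have e1 : Polynomial.taylor (-u) (Polynomial.taylor u P) = P := by
    rw [Polynomial.taylor_taylor, neg_add_cancel, Polynomial.taylor_zero]
  have hQ : (Polynomial.taylor u P).natDegree ≤ D := by
    rw [Polynomial.natDegree_taylor]
    exact hP
  have hc : ∀ l : ℕ, (Polynomial.taylor u P).coeff l =
      (Polynomial.derivative^[l] P).eval u / (l.factorial : ℝ) := by
    intro l
    rw [Polynomial.taylor_coeff]
    have h2 : (Polynomial.derivative^[l] P) = (l.factorial : ℕ) • Polynomial.hasseDeriv l P := by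
      have := congrFun (Polynomial.factorial_smul_hasseDeriv (R := ℝ) l) P
      rw [← this]
      rfl
    rw [h2, Polynomial.eval_smul, nsmul_eq_mul]
    have : (l.factorial : ℝ) ≠ 0 := by exact_mod_cast l.factorial_ne_zero
    field_simp
  have h3 : P.coeff j = (Polynomial.derivative^[j] (Polynomial.taylor u P)).eval (-u) /
      (j.factorial : ℝ) := by
    conv_lhs => rw [← e1]
    rw [Polynomial.taylor_coeff]
    have h2 : (Polynomial.derivative^[j] (Polynomial.taylor u P)) =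
        (j.factorial : ℕ) • Polynomial.hasseDeriv j (Polynomial.taylor u P) := by
      have := congrFun (Polynomial.factorial_smul_hasseDeriv (R := ℝ) j) (Polynomial.taylor u P)
      rw [← this]
      rfl
    rw [h2, Polynomial.eval_smul, nsmul_eq_mul]
    have : (j.factorial : ℝ) ≠ 0 := by exact_mod_cast j.factorial_ne_zero
    field_simp
  rw [h3, der_sum hQ, Finset.sum_div]
  refine Finset.sum_congr rfl fun i _ => ?_
  rw [hc]

/-- The parameter of the window from the time. -/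
noncomputable def uT (J W : ℕ) (n : ℕ) : ℝ :=
  ((2 * ((n % 2 ^ (J - W) : ℕ) : ℤ) - ((2 ^ (J - W) : ℕ) : ℤ) : ℤ) : ℝ) / ((2 ^ (J - W) : ℕ) : ℝ)

theorem uw_uT {m J : ℕ} (F : Fam m J) (W : ℕ) (ω : F.Ω) : uw F W ω = uT J W (F.T ω) := rfl

/-- The constant. -/
noncomputable def cJB (K : ℕ) : ℝ :=
  2 ^ (K + 2) * ∑ i ∈ range (K + 2), ∑ j ∈ range (K + 3), ((i + j).descFactorial j : ℝ)

theorem cJB_nn (K : ℕ) : 0 ≤ cJB K := by
  unfold cJB
  positivity

theorem cJB_le (K : ℕ) {j : ℕ} (hj : j ≤ K + 2) :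
    2 ^ (K + 2) * ∑ i ∈ range (K + 2), ((i + j).descFactorial j : ℝ) ≤ cJB K := by
  unfold cJB
  refine mul_le_mul_of_nonneg_left ?_ (by positivity)
  refine Finset.sum_le_sum fun i _ => ?_
  exact Finset.single_le_sum (f := fun j => ((i + j).descFactorial j : ℝ))
    (fun _ _ => Nat.cast_nonneg _) (Finset.mem_range.2 (by omega))

/-- The ratio of the two units of time. -/
theorem tht {w : ℝ} (hw : 0 ≤ w) (J : ℕ) : ∃ θ : ℝ, 1 ≤ θ ∧ θ ≤ 2 ∧
    (2 : ℝ) ^ (⌊w * J⌋₊ + 1) = θ * (2 : ℝ) ^ (w * J) := by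
  have h0 : 0 ≤ w * J := mul_nonneg hw (Nat.cast_nonneg J)
  have h1 := Nat.floor_le h0
  have h2 := Nat.lt_floor_add_one (w * J)
  refine ⟨(2 : ℝ) ^ ((⌊w * J⌋₊ : ℝ) + 1 - w * J), ?_, ?_, ?_⟩
  · exact Real.one_le_rpow one_le_two (by linarith)
  · calc (2 : ℝ) ^ ((⌊w * J⌋₊ : ℝ) + 1 - w * J) ≤ (2 : ℝ) ^ (1 : ℝ) :=
          Real.rpow_le_rpow_of_exponent_le one_le_two (by linarith)
      _ = 2 := Real.rpow_one 2
  · rw [← Real.rpow_add two_pos, ← Real.rpow_natCast]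
    congr 1
    push_cast
    ring

/-- **TASK A1.** The jets at the sample, up to a constant, are a function of the coefficients of
order at least `i₀` of the own path (`X l` digits for order `l`, increasing in `l`) and the time. -/
theorem oj_near (K : ℕ) : ∃ C : ℝ, 0 ≤ C ∧ ∀ {m J : ℕ} (F : Fam m J) {κ : Fin m} {V : Type}
    (z' : LnT F → V) (G : V → MvPolynomial (Option (Fin m)) ℝ)
    (_ : ∀ v, (G v).totalDegree ≤ K + 1) {w p : ℝ} (_ : 0 ≤ w) (_ : w ≤ 1) {X : ℕ → ℝ}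
    {i₀ j : ℕ} (_ : i₀ ≤ j) (_ : j ≤ K + 2) (_ : ∀ l, j ≤ l → X j ≤ X l),
    ∃ Φ : (Fin (K + 3) → ℤ) → ℕ → ℝ, ∀ ω,
      |(2 : ℝ) ^ ((p + X j - j * w) * J) * ojet F κ j (G (z' (slam F ⌊w * J⌋₊ ω))) ω -
        Φ (fun l => if i₀ ≤ (l : ℕ) then ⌊jr F ⌊w * J⌋₊ (2 ^ ((p + X l) * J)) κ z' G l
          (slam F ⌊w * J⌋₊ ω)⌋ else 0) (F.T ω)| ≤ C := by
  refine ⟨cJB K, cJB_nn K, ?_⟩
  intro m J F κ V z' G hG w p hw0 hw1 X i₀ j hi hj hX
  obtain ⟨W, hW⟩ : ∃ W : ℕ, W = ⌊w * J⌋₊ := ⟨_, rfl⟩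
  rw [← hW]
  have hWJ : W ≤ J := by
    rw [hW]
    exact Nat.floor_le_of_le (by
      have : (0 : ℝ) ≤ J := Nat.cast_nonneg J
      nlinarith)
  obtain ⟨θ, hθ1, hθ2, hθ⟩ := tht hw0 J
  rw [← hW] at hθ
  have hθ0 : 0 < θ := by linarith
  refine ⟨fun y n => θ ^ j * ∑ i ∈ range (K + 2), ((i + j).descFactorial j : ℝ) *
    ((2 : ℝ) ^ ((X j - X (i + j)) * J) *
      (if h : i + j < K + 3 then (y ⟨i + j, h⟩ : ℝ) else 0)) * uT J W n ^ i, ?_⟩
  intro ω
  have hdeg : ∀ v, (MvPolynomial.X (some κ) - G v : MvPolynomial (Option (Fin m)) ℝ).totalDegree ≤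
      K + 1 := by
    intro v
    refine (MvPolynomial.totalDegree_sub _ _).trans (max_le ?_ (hG v))
    rw [MvPolynomial.totalDegree_X]
    omega
  obtain ⟨P, hP⟩ : ∃ P : Polynomial ℝ, P = opl F W
    (MvPolynomial.X (some κ) - G (z' (slam F W ω))) (slam F W ω) := ⟨_, rfl⟩
  have hPd : P.natDegree ≤ K + 1 := by
    rw [hP]
    exact natDegree_opl F W (hdeg _) _
  have hjr : ∀ l : ℕ, jr F W (2 ^ ((p + X l) * J)) κ z' G l (slam F W ω) =
      (2 : ℝ) ^ ((p + X l) * J) * P.coeff l := by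
    intro l
    unfold jr jR
    rw [Polynomial.coeff_C_mul, hP]
  have hjet := opl_jet F hWJ (MvPolynomial.X (some κ) - G (z' (slam F W ω))) ω j
  rw [← hP, der_sum hPd j (uw F W ω)] at hjet
  have hoj : ojet F κ j (G (z' (slam F W ω))) ω =
      jet j (MvPolynomial.X (some κ) - G (z' (slam F W ω))) (bt F ω) (bd F ω) := rfl
  rw [← hoj] at hjet
  have hρ : (0 : ℝ) < (2 : ℝ) ^ (W + 1) := by positivity
  have h2w : (0 : ℝ) < (2 : ℝ) ^ (w * J) := by positivity
  have e0 : (2 : ℝ) ^ ((p + X j - j * w) * J) =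
      (2 : ℝ) ^ ((p + X j) * J) / ((2 : ℝ) ^ (w * J)) ^ j := by
    rw [← Real.rpow_natCast, ← Real.rpow_mul two_pos.le, ← Real.rpow_sub two_pos]
    congr 1
    ring
  have e1 : (2 : ℝ) ^ ((p + X j - j * w) * J) * ojet F κ j (G (z' (slam F W ω))) ω =
      θ ^ j * ((2 : ℝ) ^ ((p + X j) * J) *
        ((1 / 2 ^ (W + 1)) ^ j * ojet F κ j (G (z' (slam F W ω))) ω)) := by
    rw [e0, hθ, div_pow, mul_pow, one_pow]
    have : θ ^ j ≠ 0 := (pow_pos hθ0 j).ne'
    field_simp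
  rw [e1, ← hjet, Finset.mul_sum, ← mul_sub, ← Finset.sum_sub_distrib, abs_mul,
    abs_of_pos (pow_pos hθ0 j)]
  have hu : |uw F W ω| ≤ 1 := uw_abs F W ω
  have key : ∀ i ∈ range (K + 2),
      |(2 : ℝ) ^ ((p + X j) * J) * (((i + j).descFactorial j : ℝ) * P.coeff (i + j) *
        uw F W ω ^ i) - ((i + j).descFactorial j : ℝ) * ((2 : ℝ) ^ ((X j - X (i + j)) * J) *
        (if h : i + j < K + 3 then (((fun l : Fin (K + 3) => if i₀ ≤ (l : ℕ) then
          ⌊jr F W (2 ^ ((p + X l) * J)) κ z' G l (slam F W ω)⌋ else 0) ⟨i + j, h⟩ : ℤ) : ℝ)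
          else 0)) * uT J W (F.T ω) ^ i| ≤ ((i + j).descFactorial j : ℝ) := by
    intro i _
    rw [← uw_uT]
    have hlam : (2 : ℝ) ^ ((X j - X (i + j)) * J) ≤ 1 := by
      refine Real.rpow_le_one_of_one_le_of_nonpos one_le_two ?_
      have h5 := hX (i + j) (by omega)
      have : (0 : ℝ) ≤ J := Nat.cast_nonneg J
      nlinarith
    have hlam0 : (0 : ℝ) < (2 : ℝ) ^ ((X j - X (i + j)) * J) := by positivity
    have e2 : (2 : ℝ) ^ ((p + X j) * J) * P.coeff (i + j) =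
        (2 : ℝ) ^ ((X j - X (i + j)) * J) * ((2 : ℝ) ^ ((p + X (i + j)) * J) * P.coeff (i + j)) := by
      rw [← mul_assoc, ← Real.rpow_add two_pos]
      congr 2
      ring
    by_cases h : i + j < K + 3
    · rw [dif_pos h]
      dsimp only
      rw [if_pos (by omega : i₀ ≤ i + j), hjr]
      obtain ⟨x, hx⟩ : ∃ x : ℝ, x = (2 : ℝ) ^ ((p + X (i + j)) * J) * P.coeff (i + j) := ⟨_, rfl⟩
      have e3 : (2 : ℝ) ^ ((p + X j) * J) * (((i + j).descFactorial j : ℝ) * P.coeff (i + j) *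
          uw F W ω ^ i) - ((i + j).descFactorial j : ℝ) * ((2 : ℝ) ^ ((X j - X (i + j)) * J) *
          (⌊x⌋ : ℝ)) * uw F W ω ^ i = ((i + j).descFactorial j : ℝ) *
          ((2 : ℝ) ^ ((X j - X (i + j)) * J) * ((x - ⌊x⌋) * uw F W ω ^ i)) := by
        have : (2 : ℝ) ^ ((p + X j) * J) * (((i + j).descFactorial j : ℝ) * P.coeff (i + j) *
          uw F W ω ^ i) = ((i + j).descFactorial j : ℝ) *
            ((2 : ℝ) ^ ((p + X j) * J) * P.coeff (i + j)) * uw F W ω ^ i := by ring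
        rw [this, e2, ← hx]
        ring
      rw [← hx, e3, abs_mul, abs_mul, abs_mul, abs_pow, Nat.abs_cast, abs_of_pos hlam0]
      have g1 := fl_one x
      have g2 : |uw F W ω| ^ i ≤ 1 := pow_le_one₀ (abs_nonneg _) hu
      have g3 : |x - (⌊x⌋ : ℝ)| * |uw F W ω| ^ i ≤ 1 :=
        mul_le_one₀ g1 (by positivity) g2
      have g4 : (2 : ℝ) ^ ((X j - X (i + j)) * J) * (|x - (⌊x⌋ : ℝ)| * |uw F W ω| ^ i) ≤ 1 :=
        mul_le_one₀ hlam (by positivity) g3
      calc _ ≤ ((i + j).descFactorial j : ℝ) * 1 :=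
            mul_le_mul_of_nonneg_left g4 (Nat.cast_nonneg _)
        _ = _ := mul_one _
    · rw [dif_neg h]
      have : P.coeff (i + j) = 0 := Polynomial.coeff_eq_zero_of_natDegree_lt (by omega)
      rw [this]
      simp
  have hsum := (Finset.abs_sum_le_sum_abs _ _).trans (Finset.sum_le_sum key)
  have hθj : θ ^ j ≤ 2 ^ (K + 2) :=
    (pow_le_pow_left₀ hθ0.le hθ2 j).trans (pow_le_pow_right₀ one_le_two hj)
  refine le_trans (mul_le_mul hθj hsum (abs_nonneg _) (by positivity)) (cJB_le K hj)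

/-- **TASK A2.** The coefficients of the own path, up to a constant, are a function of the jets at
the sample and the time. -/
theorem jr_near (K : ℕ) : ∃ C : ℝ, 0 ≤ C ∧ ∀ {m J : ℕ} (F : Fam m J) {κ : Fin m} {V : Type}
    (z' : LnT F → V) (G : V → MvPolynomial (Option (Fin m)) ℝ)
    (_ : ∀ v, (G v).totalDegree ≤ K + 1) {w p : ℝ} (_ : 0 ≤ w) (_ : w ≤ 1) {X : ℕ → ℝ}
    {i₀ j : ℕ} (_ : i₀ ≤ j) (_ : j ≤ K + 2) (_ : ∀ l, j ≤ l → X j ≤ X l),
    ∃ Φ : (Fin (K + 3) → ℤ) → ℕ → ℝ, ∀ ω,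
      |jr F ⌊w * J⌋₊ (2 ^ ((p + X j) * J)) κ z' G j (slam F ⌊w * J⌋₊ ω) -
        Φ (fun l => if i₀ ≤ (l : ℕ) then ⌊(2 : ℝ) ^ ((p + X l - l * w) * J) *
          ojet F κ l (G (z' (slam F ⌊w * J⌋₊ ω))) ω⌋ else 0) (F.T ω)| ≤ C := by
  refine ⟨cJB K, cJB_nn K, ?_⟩
  intro m J F κ V z' G hG w p hw0 hw1 X i₀ j hi hj hX
  obtain ⟨W, hW⟩ : ∃ W : ℕ, W = ⌊w * J⌋₊ := ⟨_, rfl⟩
  rw [← hW]
  have hWJ : W ≤ J := by
    rw [hW]
    exact Nat.floor_le_of_le (by
      have : (0 : ℝ) ≤ J := Nat.cast_nonneg J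
      nlinarith)
  obtain ⟨θ, hθ1, hθ2, hθ⟩ := tht hw0 J
  rw [← hW] at hθ
  have hθ0 : 0 < θ := by linarith
  refine ⟨fun y n => ∑ i ∈ range (K + 2), ((i + j).descFactorial j : ℝ) *
    ((2 : ℝ) ^ ((X j - X (i + j)) * J) * ((1 / θ) ^ (i + j) *
      (if h : i + j < K + 3 then (y ⟨i + j, h⟩ : ℝ) else 0)) / ((i + j).factorial : ℝ)) *
        (-uT J W n) ^ i / (j.factorial : ℝ), ?_⟩
  intro ω
  have hdeg : ∀ v, (MvPolynomial.X (some κ) - G v : MvPolynomial (Option (Fin m)) ℝ).totalDegree ≤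
      K + 1 := by
    intro v
    refine (MvPolynomial.totalDegree_sub _ _).trans (max_le ?_ (hG v))
    rw [MvPolynomial.totalDegree_X]
    omega
  obtain ⟨P, hP⟩ : ∃ P : Polynomial ℝ, P = opl F W
    (MvPolynomial.X (some κ) - G (z' (slam F W ω))) (slam F W ω) := ⟨_, rfl⟩
  have hPd : P.natDegree ≤ K + 1 := by
    rw [hP]
    exact natDegree_opl F W (hdeg _) _
  have hjr : jr F W (2 ^ ((p + X j) * J)) κ z' G j (slam F W ω) =
      (2 : ℝ) ^ ((p + X j) * J) * P.coeff j := by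
    unfold jr jR
    rw [Polynomial.coeff_C_mul, hP]
  have hoj : ∀ l : ℕ, (Polynomial.derivative^[l] P).eval (uw F W ω) =
      (1 / 2 ^ (W + 1)) ^ l * ojet F κ l (G (z' (slam F W ω))) ω := by
    intro l
    rw [hP]
    exact opl_jet F hWJ _ ω l
  rw [hjr, coef_sum hPd j (uw F W ω), Finset.mul_sum, ← Finset.sum_sub_distrib]
  have hρ : (0 : ℝ) < (2 : ℝ) ^ (W + 1) := by positivity
  have h2w : (0 : ℝ) < (2 : ℝ) ^ (w * J) := by positivity
  have hu : |uw F W ω| ≤ 1 := uw_abs F W ω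
  have key : ∀ i ∈ range (K + 2),
      |(2 : ℝ) ^ ((p + X j) * J) * (((i + j).descFactorial j : ℝ) *
        ((Polynomial.derivative^[i + j] P).eval (uw F W ω) / ((i + j).factorial : ℝ)) *
        (-uw F W ω) ^ i / (j.factorial : ℝ)) - ((i + j).descFactorial j : ℝ) *
    ((2 : ℝ) ^ ((X j - X (i + j)) * J) * ((1 / θ) ^ (i + j) *
      (if h : i + j < K + 3 then (((fun l : Fin (K + 3) => if i₀ ≤ (l : ℕ) then
        ⌊(2 : ℝ) ^ ((p + X l - l * w) * J) * ojet F κ l (G (z' (slam F W ω))) ω⌋ else 0)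
          ⟨i + j, h⟩ : ℤ) : ℝ) else 0)) / ((i + j).factorial : ℝ)) *
        (-uT J W (F.T ω)) ^ i / (j.factorial : ℝ)| ≤ ((i + j).descFactorial j : ℝ) := by
    intro i _
    rw [← uw_uT, hoj]
    have hlam : (2 : ℝ) ^ ((X j - X (i + j)) * J) ≤ 1 := by
      refine Real.rpow_le_one_of_one_le_of_nonpos one_le_two ?_
      have h5 := hX (i + j) (by omega)
      have : (0 : ℝ) ≤ J := Nat.cast_nonneg J
      nlinarith
    have hlam0 : (0 : ℝ) < (2 : ℝ) ^ ((X j - X (i + j)) * J) := by positivity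
    have hth : (1 / θ) ^ (i + j) ≤ 1 := pow_le_one₀ (by positivity) (by
      rw [div_le_one hθ0]
      exact hθ1)
    have hth0 : 0 < (1 / θ) ^ (i + j) := by positivity
    by_cases h : i + j < K + 3
    · rw [dif_pos h]
      dsimp only
      rw [if_pos (by omega : i₀ ≤ i + j)]
      obtain ⟨o, ho⟩ : ∃ o : ℝ, o = ojet F κ (i + j) (G (z' (slam F W ω))) ω := ⟨_, rfl⟩
      rw [← ho]
      obtain ⟨x, hx⟩ : ∃ x : ℝ, x = (2 : ℝ) ^ ((p + X (i + j) - ((i + j : ℕ) : ℝ) * w) * J) * o :=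
        ⟨_, rfl⟩
      rw [← hx]
      have e2 : (2 : ℝ) ^ ((p + X j) * J) * ((1 / 2 ^ (W + 1)) ^ (i + j) * o) =
          (2 : ℝ) ^ ((X j - X (i + j)) * J) * ((1 / θ) ^ (i + j) * x) := by
        have e3 : (2 : ℝ) ^ ((p + X (i + j) - ((i + j : ℕ) : ℝ) * w) * J) =
            (2 : ℝ) ^ ((p + X (i + j)) * J) / ((2 : ℝ) ^ (w * J)) ^ (i + j) := by
          rw [← Real.rpow_natCast, ← Real.rpow_mul two_pos.le, ← Real.rpow_sub two_pos]
          congr 1
          push_cast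
          ring
        have e4 : (2 : ℝ) ^ ((p + X j) * J) =
            (2 : ℝ) ^ ((X j - X (i + j)) * J) * (2 : ℝ) ^ ((p + X (i + j)) * J) := by
          rw [← Real.rpow_add two_pos]
          congr 1
          ring
        rw [hx, e3, e4, hθ, div_pow, div_pow, mul_pow, one_pow]
        field_simp
      have e5 : (2 : ℝ) ^ ((p + X j) * J) * (((i + j).descFactorial j : ℝ) *
          ((1 / 2 ^ (W + 1)) ^ (i + j) * o / ((i + j).factorial : ℝ)) *
          (-uw F W ω) ^ i / (j.factorial : ℝ)) - ((i + j).descFactorial j : ℝ) *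
          ((2 : ℝ) ^ ((X j - X (i + j)) * J) * ((1 / θ) ^ (i + j) * (⌊x⌋ : ℝ)) /
            ((i + j).factorial : ℝ)) * (-uw F W ω) ^ i / (j.factorial : ℝ) =
          ((i + j).descFactorial j : ℝ) * (((2 : ℝ) ^ ((X j - X (i + j)) * J) *
            ((1 / θ) ^ (i + j) * ((x - ⌊x⌋) * (-uw F W ω) ^ i))) /
              (((i + j).factorial : ℝ) * (j.factorial : ℝ))) := by
        have : (2 : ℝ) ^ ((p + X j) * J) * (((i + j).descFactorial j : ℝ) *
          ((1 / 2 ^ (W + 1)) ^ (i + j) * o / ((i + j).factorial : ℝ)) *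
          (-uw F W ω) ^ i / (j.factorial : ℝ)) = ((i + j).descFactorial j : ℝ) *
          (((2 : ℝ) ^ ((p + X j) * J) * ((1 / 2 ^ (W + 1)) ^ (i + j) * o)) /
            ((i + j).factorial : ℝ)) * (-uw F W ω) ^ i / (j.factorial : ℝ) := by ring
        rw [this, e2]
        ring
      rw [e5]
      generalize (1 / θ) ^ (i + j) = t at hth hth0
      rw [abs_mul, Nat.abs_cast, abs_div, abs_mul, abs_mul, abs_mul, abs_pow, abs_neg,
        abs_of_pos hlam0, abs_of_pos hth0]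
      have g1 := fl_one x
      have g2 : |uw F W ω| ^ i ≤ 1 := pow_le_one₀ (abs_nonneg _) hu
      have g3 : |x - (⌊x⌋ : ℝ)| * |uw F W ω| ^ i ≤ 1 :=
        mul_le_one₀ g1 (by positivity) g2
      have g4 : t * (|x - (⌊x⌋ : ℝ)| * |uw F W ω| ^ i) ≤ 1 :=
        mul_le_one₀ hth (by positivity) g3
      have g5 : (2 : ℝ) ^ ((X j - X (i + j)) * J) *
          (t * (|x - (⌊x⌋ : ℝ)| * |uw F W ω| ^ i)) ≤ 1 :=
        mul_le_one₀ hlam (by positivity) g4
      have f1 : (1 : ℝ) ≤ ((i + j).factorial : ℝ) := by exact_mod_cast (i + j).factorial_pos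
      have f2 : (1 : ℝ) ≤ (j.factorial : ℝ) := by exact_mod_cast j.factorial_pos
      have f3 : (1 : ℝ) ≤ ((i + j).factorial : ℝ) * (j.factorial : ℝ) :=
        one_le_mul_of_one_le_of_one_le f1 f2
      have g6 : (2 : ℝ) ^ ((X j - X (i + j)) * J) *
          (t * (|x - (⌊x⌋ : ℝ)| * |uw F W ω| ^ i)) /
            |((i + j).factorial : ℝ) * (j.factorial : ℝ)| ≤ 1 := by
        have f4 : (0 : ℝ) < ((i + j).factorial : ℝ) * (j.factorial : ℝ) := by linarith
        rw [abs_of_pos f4, div_le_one f4]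
        linarith
      calc _ ≤ ((i + j).descFactorial j : ℝ) * 1 :=
            mul_le_mul_of_nonneg_left g6 (Nat.cast_nonneg _)
        _ = _ := mul_one _
    · rw [dif_neg h]
      have h6 : ojet F κ (i + j) (G (z' (slam F W ω))) ω = 0 := by
        have h7 := hoj (i + j)
        rw [Polynomial.iterate_derivative_eq_zero (by omega), Polynomial.eval_zero] at h7
        rcases mul_eq_zero.1 h7.symm with h8 | h8
        · exact absurd h8 (by positivity)
        · exact h8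
      rw [h6]
      simp
  have hsum := (Finset.abs_sum_le_sum_abs _ _).trans (Finset.sum_le_sum key)
  refine hsum.trans (le_trans ?_ (cJB_le K hj))
  exact le_mul_of_one_le_left (by positivity) (one_le_pow₀ one_le_two)

end Pool.PN18
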